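import Pool.Agent.Q205.NH.Stm
import Pool.Agent.H166R3.AT.CT

set_option autoImplicit false

/-! Project NH, job CC: computability of the colouring. -/

namespace Pool.Agent.Q223.NH

open Pool.Agent.Q205.NH Pool.Agent.H166R3.AT

section
variable {α : Type*} [Primcodable α]

lemma c_unp1 {f : α → ℕ} (hf : Computable f) : Computable (fun a => (f a).unpair.1) :=
  Computable.fst.comp (Computable.unpair.comp hf)

lemma c_unp2 {f : α → ℕ} (hf : Computable f) : Computable (fun a => (f a).unpair.2) :=
  Computable.snd.comp (Computable.unpair.comp hf)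

lemma c_wK {f : α → ℕ} (hf : Computable f) : Computable (fun a => wK (f a)) := c_unp1 hf
lemma c_wj {f : α → ℕ} (hf : Computable f) : Computable (fun a => wj (f a)) := c_unp1 (c_unp2 hf)
lemma c_wL {f : α → ℕ} (hf : Computable f) : Computable (fun a => wL (f a)) := c_unp2 (c_unp2 hf)

lemma c_const (n : ℕ) : Computable (fun _ : α => n) := Computable.const n

lemma c_ite0 {β : Type*} [Primcodable β] {f : α → ℕ} {g h : α → β} (hf : Computable f)
    (hg : Computable g) (hh : Computable h) : Computable (fun a => if f a = 0 then g a else h a) := by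
  refine (c_ite (c_eq hf (c_const 0)) hg hh).of_eq (fun a => ?_)
  by_cases h : f a = 0 <;> simp [h]

lemma c_side {K x : α → ℕ} (hK : Computable K) (hx : Computable x) :
    Computable (fun a => side (K a) (x a)) :=
  c_lt (c_mod hx (c_pow (c_const 2) (c_add hK (c_const 1)))) (c_pow (c_const 2) hK)

lemma log_eq (x : ℕ) : ((Finset.range x).filter
    (fun i => decide (2 ^ (i + 1) ≤ x) = true)).card = Nat.log 2 x := by
  have : (Finset.range x).filter (fun i => decide (2 ^ (i + 1) ≤ x) = true) =
      Finset.range (Nat.log 2 x) := by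
    ext i
    simp only [Finset.mem_filter, Finset.mem_range, decide_eq_true_eq]
    rcases Nat.eq_zero_or_pos x with rfl | hx
    · simp
    · rw [← Nat.le_log_iff_pow_le (by norm_num) hx.ne']
      constructor
      · intro h; omega
      · intro h
        refine ⟨lt_of_lt_of_le h (Nat.log_le_self 2 x), by omega⟩
  rw [this, Finset.card_range]

lemma c_log {f : α → ℕ} (hf : Computable f) : Computable (fun a => Nat.log 2 (f a)) := by
  refine (c_count (f := fun a i => decide (2 ^ (i + 1) ≤ f a)) hf ?_).of_eq (fun a => log_eq (f a))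
  exact (c_le (c_pow (c_const 2) (c_add Computable.snd (c_const 1)))
    (hf.comp Computable.fst)).to₂

variable {CB : ℕ → ℕ → ℕ → Bool}

lemma c_fw (hC : Computable (fun q : (ℕ × ℕ) × ℕ => CB q.1.1 q.1.2 q.2)) {e M t : α → ℕ}
    (he : Computable e) (hM : Computable M) (ht : Computable t) :
    Computable (fun a => fw CB (e a) (M a) (t a)) := by
  have h := Computable.nat_rec (f := t) (g := fun _ => (0 : ℕ))
    (h := fun a (q : ℕ × ℕ) => if q.2 = 0 then
      (if CB (e a) (M a) q.1 = true then q.1 + 1 else 0) else q.2) ht (Computable.const 0) (by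
      have s2 : Computable (fun w : α × ℕ × ℕ => w.2.2) := Computable.snd.comp Computable.snd
      have s1 : Computable (fun w : α × ℕ × ℕ => w.2.1) := Computable.fst.comp Computable.snd
      refine c_ite0 s2 ?_ s2
      refine c_ite ?_ (c_add s1 (c_const 1)) (c_const 0)
      exact hC.comp (((he.comp Computable.fst).pair (hM.comp Computable.fst)).pair s1))
  refine h.of_eq (fun a => ?_)
  induction t a with
  | zero => rfl
  | succ m ih => simp only [ih]; rfl

lemma c_Mv (hC : Computable (fun q : (ℕ × ℕ) × ℕ => CB q.1.1 q.1.2 q.2)) {t i : α → ℕ}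
    (ht : Computable t) (hi : Computable i) : Computable (fun a => Mv CB (t a) (i a)) := by
  have h := Computable.nat_rec (f := i) (g := fun _ => (1 : ℕ))
    (h := fun a (q : ℕ × ℕ) => if fw CB q.1 q.2 (t a) = 0 then q.2 else
      q.2 * 2 ^ (wK (fw CB q.1 q.2 (t a) - 1) + 1 + wL (fw CB q.1 q.2 (t a) - 1)))
    hi (Computable.const 1) (by
      have s2 : Computable (fun w : α × ℕ × ℕ => w.2.2) := Computable.snd.comp Computable.snd
      have s1 : Computable (fun w : α × ℕ × ℕ => w.2.1) := Computable.fst.comp Computable.snd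
      have s3 : Computable (fun w : α × ℕ × ℕ => fw CB w.2.1 w.2.2 (t w.1)) :=
        c_fw hC s1 s2 (ht.comp Computable.fst)
      have s4 := c_sub s3 (c_const 1)
      exact c_ite0 s3 s2 (c_mul s2 (c_pow (c_const 2)
        (c_add (c_add (c_wK s4) (c_const 1)) (c_wL s4)))))
  refine h.of_eq (fun a => ?_)
  induction i a with
  | zero => rfl
  | succ m ih => simp only [ih]; rfl

lemma c_ctr (hC : Computable (fun q : (ℕ × ℕ) × ℕ => CB q.1.1 q.1.2 q.2)) {t i x : α → ℕ}
    (ht : Computable t) (hi : Computable i) (hx : Computable x) :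
    Computable (fun a => ctr CB (t a) (i a) (x a)) := by
  have h1 := c_Mv hC ht hi
  have h2 := c_fw hC hi h1 ht
  have h3 := c_Mv hC ht (c_add hi (c_const 1))
  have h4 := c_sub h2 (c_const 1)
  have h5 := c_ofb (c_side (c_wK h4) (c_mul (c_wj h4) (c_div hx h1)))
  have h6 := c_and (c_not (c_eq h2 (c_const 0))) (c_le h3 (c_pow (c_const 2) ht))
  refine (c_ite h6 h5 (c_const 0)).of_eq (fun a => ?_)
  rw [ctr]
  simp

end

theorem s_cc : S_CC := by
  intro CB hC
  have hl : Computable (fun x : ℕ => Nat.log 2 x) := c_log Computable.id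
  have h1 : Computable₂ (fun (x : ℕ) (i : ℕ) => ctr CB (Nat.log 2 x) i x) :=
    (c_ctr hC (hl.comp Computable.fst) Computable.snd Computable.fst).to₂
  exact c_eq (c_mod (c_sum hl h1) (c_const 2)) (c_const 1)

end Pool.Agent.Q223.NH
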