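import Pool.Agent.Q223.NH.CC

set_option autoImplicit false

/-! Project NH, job CP: computability of the condition. -/

namespace Pool.Agent.Q223.NH

open Pool.Agent.Q205.NH Pool.Agent.H166R3.AT

/-- the bit number `d` of `v` -/
def tb (v d : ℕ) : Bool := decide (v / 2 ^ d % 2 = 1)

lemma tb_eq (v d : ℕ) : tb v d = v.testBit d := by
  rw [Nat.testBit_eq_decide_div_mod_eq]; rfl

/-- the string of length `L` coded by `s` -/
def str (L s : ℕ) : List Bool := (List.range L).map (tb s)

/-- decidable form of `Good` for the set coded by `v` -/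
def goodB (M K j L v : ℕ) : Bool :=
  ball L (fun d => ball L (fun d' => !(tb v d && tb v d') || decide (d % M = d' % M))) &&
  ball (L + 1) (fun q => ball (2 ^ (K + 1)) (fun r =>
    bex L (fun d => bex L (fun d' => (tb v d && tb v d') && ((decide (d < q) && decide (d' < q)) &&
      !(decide (side K (j * (d / M) + r) = side K (j * (d' / M) + r)))))) ||
    bex L (fun d => bex L (fun d' => (tb v d && tb v d') && ((decide (q ≤ d) && decide (q ≤ d')) &&
      !(decide (side K (j * (d / M) + r) = side K (j * (d' / M) + r))))))))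

/-- decidable form of `GoodStr` -/
def gstrB (E : ℕ → List Bool → ℕ → Bool) (e M K j L s : ℕ) : Bool :=
  bex (2 ^ L) (fun v => goodB M K j L v && ball L (fun d => !(tb v d) || E e (str L s) d))

/-- decidable form of `Cond` -/
def condB (E : ℕ → List Bool → ℕ → Bool) (e M K j L : ℕ) : Bool :=
  decide (2 ^ L ≤ 2 * ((Finset.range (2 ^ L)).filter
    (fun s => gstrB E e M K j L s = true)).card)

/-- the set coded by `v` -/
def set (L v : ℕ) : Finset ℕ := (Finset.range L).filter (fun d => tb v d = true)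

lemma mem_set {L v d : ℕ} : d ∈ set L v ↔ d < L ∧ tb v d = true := by
  simp [set]

lemma goodB_iff (M K j L v : ℕ) : goodB M K j L v = true ↔ Good M K j L (set L v) := by
  simp only [goodB, Good, Bool.and_eq_true, ball_iff, bex_iff, Bool.or_eq_true,
    Bool.not_eq_true', decide_eq_false_iff_not, decide_eq_true_eq, mem_set, Bool.and_eq_false_iff]
  refine and_congr ⟨?_, ?_⟩ ⟨?_, ?_⟩
  · rintro h d ⟨h1, h2⟩ d' ⟨h3, h4⟩
    rcases h d h1 d' h3 with (h5 | h5) | h5
    · rw [h2] at h5; cases h5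
    · rw [h4] at h5; cases h5
    · exact h5
  · intro h d h1 d' h3
    cases h2 : tb v d with
    | false => left; left; rfl
    | true =>
      cases h4 : tb v d' with
      | false => left; right; rfl
      | true => right; exact h d ⟨h1, h2⟩ d' ⟨h3, h4⟩
  · intro h q hq r hr
    rcases h q (by omega) r hr with ⟨d, h1, d', h2, ⟨h3, h4⟩, ⟨h5, h6⟩, h7⟩ |
      ⟨d, h1, d', h2, ⟨h3, h4⟩, ⟨h5, h6⟩, h7⟩
    · exact Or.inl ⟨d, ⟨h1, h3⟩, d', ⟨h2, h4⟩, h5, h6, h7⟩
    · exact Or.inr ⟨d, ⟨h1, h3⟩, d', ⟨h2, h4⟩, h5, h6, h7⟩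
  · intro h q hq r hr
    rcases h q (by omega) r hr with ⟨d, ⟨h1, h3⟩, d', ⟨h2, h4⟩, h5, h6, h7⟩ |
      ⟨d, ⟨h1, h3⟩, d', ⟨h2, h4⟩, h5, h6, h7⟩
    · exact Or.inl ⟨d, h1, d', h2, ⟨h3, h4⟩, ⟨h5, h6⟩, h7⟩
    · exact Or.inr ⟨d, h1, d', h2, ⟨h3, h4⟩, ⟨h5, h6⟩, h7⟩

/-- the coding map -/
def cod (L : ℕ) (s : Fin (2 ^ L)) : Fin L → Bool := fun i => tb s.1 i.1

lemma cod_bij (L : ℕ) : Function.Bijective (cod L) := by
  rw [Fintype.bijective_iff_injective_and_card]
  refine ⟨?_, by simp⟩
  intro s s' h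
  apply Fin.ext
  apply Nat.eq_of_testBit_eq
  intro i
  by_cases hi : i < L
  · have := congrFun h ⟨i, hi⟩
    simpa [cod, tb_eq] using this
  · rw [Nat.testBit_lt_two_pow (lt_of_lt_of_le s.2 (Nat.pow_le_pow_right (by norm_num) (not_lt.1 hi))),
      Nat.testBit_lt_two_pow (lt_of_lt_of_le s'.2 (Nat.pow_le_pow_right (by norm_num) (not_lt.1 hi)))]

lemma str_cod (L : ℕ) (s : Fin (2 ^ L)) : str L s.1 = List.ofFn (cod L s) := by
  apply List.ext_getElem
  · simp [str]
  · intro i h1 h2
    simp [str, cod]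

lemma exists_set (L : ℕ) (D : Finset ℕ) (hD : ∀ d ∈ D, d < L) : ∃ v < 2 ^ L, set L v = D := by
  classical
  obtain ⟨v, hv⟩ := (cod_bij L).2 (fun i => decide (i.1 ∈ D))
  refine ⟨v.1, v.2, ?_⟩
  ext d
  rw [mem_set]
  constructor
  · rintro ⟨h1, h2⟩
    have := congrFun hv ⟨d, h1⟩
    simp only [cod] at this
    rw [h2] at this
    simpa using this.symm
  · intro h
    refine ⟨hD d h, ?_⟩
    have := congrFun hv ⟨d, hD d h⟩
    simp only [cod] at this
    rw [this]
    simpa using h

lemma gstrB_iff (E : ℕ → List Bool → ℕ → Bool) (e M K j L s : ℕ) :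
    gstrB E e M K j L s = true ↔ GoodStr E e M K j L (str L s) := by
  simp only [gstrB, GoodStr, bex_iff, Bool.and_eq_true, goodB_iff, ball_iff, Bool.or_eq_true,
    Bool.not_eq_true']
  constructor
  · rintro ⟨v, hv, h1, h2⟩
    refine ⟨set L v, h1, ?_⟩
    intro d hd
    rw [mem_set] at hd
    refine ⟨hd.1, ?_⟩
    rcases h2 d hd.1 with h3 | h3
    · rw [hd.2] at h3; cases h3
    · exact h3
  · rintro ⟨D, h1, h2⟩
    obtain ⟨v, hv, rfl⟩ := exists_set L D (fun d hd => (h2 d hd).1)
    refine ⟨v, hv, h1, ?_⟩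
    intro d hd
    cases h3 : tb v d with
    | false => left; rfl
    | true => right; exact (h2 d (mem_set.2 ⟨hd, h3⟩)).2

lemma condB_iff (E : ℕ → List Bool → ℕ → Bool) (e M K j L : ℕ) :
    condB E e M K j L = true ↔ Cond E e M K j L := by
  classical
  rw [condB, decide_eq_true_iff, Cond]
  have h : ((Finset.range (2 ^ L)).filter (fun s => gstrB E e M K j L s = true)).card =
      (Finset.univ.filter fun σ : Fin L → Bool =>
        GoodStr E e M K j L (List.ofFn σ)).card := by
    refine Finset.card_bij (fun s hs => cod L ⟨s, Finset.mem_range.1 (Finset.mem_filter.1 hs).1⟩)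
      ?_ ?_ ?_
    · intro s hs
      rw [Finset.mem_filter]
      refine ⟨Finset.mem_univ _, ?_⟩
      rw [← str_cod]
      exact (gstrB_iff _ _ _ _ _ _ _).1 (Finset.mem_filter.1 hs).2
    · intro s hs s' hs' h
      have := (cod_bij L).1 h
      exact congrArg Fin.val this
    · intro σ hσ
      obtain ⟨s, rfl⟩ := (cod_bij L).2 σ
      rw [Finset.mem_filter, ← str_cod] at hσ
      refine ⟨s.1, ?_, rfl⟩
      rw [Finset.mem_filter, Finset.mem_range]
      exact ⟨s.2, (gstrB_iff _ _ _ _ _ _ _).2 hσ.2⟩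
  rw [h]

section
variable {α : Type*} [Primcodable α]

lemma c_tb {v d : α → ℕ} (hv : Computable v) (hd : Computable d) :
    Computable (fun a => tb (v a) (d a)) :=
  c_eq (c_mod (c_div hv (c_pow (c_const 2) hd)) (c_const 2)) (c_const 1)

lemma tb_primrec : Primrec₂ tb := by
  have h1 : Primrec (fun q : ℕ × ℕ => q.1 / 2 ^ q.2 % 2) :=
    Primrec.nat_mod.comp (Primrec.nat_div.comp Primrec.fst
      (pow_primrec'.comp (Primrec.const 2) Primrec.snd)) (Primrec.const 2)
  exact (Primrec.eq.comp h1 (Primrec.const 1)).decide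

lemma str_primrec : Primrec₂ str := by
  have h : Primrec (fun q : ℕ × ℕ => (List.range q.1).map (tb q.2)) :=
    Primrec.list_map (Primrec.list_range.comp Primrec.fst)
      (tb_primrec.comp (Primrec.snd.comp Primrec.fst) Primrec.snd).to₂
  exact h

lemma c_str {L s : α → ℕ} (hL : Computable L) (hs : Computable s) :
    Computable (fun a => str (L a) (s a)) := str_primrec.to_comp.comp hL hs

lemma c_body {X : α → Bool} {M K j r v d d' : α → ℕ} (hX : Computable X) (hM : Computable M)
    (hK : Computable K) (hj : Computable j) (hr : Computable r) (hv : Computable v)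
    (hd : Computable d) (hd' : Computable d') :
    Computable (fun a => (tb (v a) (d a) && tb (v a) (d' a)) && (X a &&
      !(decide (side (K a) (j a * (d a / M a) + r a) =
        side (K a) (j a * (d' a / M a) + r a))))) :=
  c_and (c_and (c_tb hv hd) (c_tb hv hd')) (c_and hX (c_not (c_eq
    (c_side hK (c_add (c_mul hj (c_div hd hM)) hr))
    (c_side hK (c_add (c_mul hj (c_div hd' hM)) hr)))))

lemma c_goodB {M K j L v : α → ℕ} (hM : Computable M) (hK : Computable K) (hj : Computable j)
    (hL : Computable L) (hv : Computable v) :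
    Computable (fun a => goodB (M a) (K a) (j a) (L a) (v a)) := by
  refine c_and ?_ ?_
  · refine c_ball hL ?_
    refine c_ball (n := fun p : α × ℕ => L p.1)
      (f := fun p d' => !(tb (v p.1) p.2 && tb (v p.1) d') || decide (p.2 % M p.1 = d' % M p.1))
      (hL.comp Computable.fst) ?_
    have f1 : Computable (fun p : (α × ℕ) × ℕ => p.1.1) := Computable.fst.comp Computable.fst
    have f2 : Computable (fun p : (α × ℕ) × ℕ => p.1.2) := Computable.snd.comp Computable.fst
    have f3 : Computable (fun p : (α × ℕ) × ℕ => p.2) := Computable.snd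
    exact c_or (c_not (c_and (c_tb (hv.comp f1) f2) (c_tb (hv.comp f1) f3)))
      (c_eq (c_mod f2 (hM.comp f1)) (c_mod f3 (hM.comp f1)))
  · refine c_ball (c_add hL (c_const 1)) ?_
    refine c_ball (n := fun p : α × ℕ => 2 ^ (K p.1 + 1))
      (f := fun p r => bex (L p.1) (fun d => bex (L p.1) (fun d' =>
          (tb (v p.1) d && tb (v p.1) d') && ((decide (d < p.2) && decide (d' < p.2)) &&
          !(decide (side (K p.1) (j p.1 * (d / M p.1) + r) =
            side (K p.1) (j p.1 * (d' / M p.1) + r)))))) ||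
        bex (L p.1) (fun d => bex (L p.1) (fun d' =>
          (tb (v p.1) d && tb (v p.1) d') && ((decide (p.2 ≤ d) && decide (p.2 ≤ d')) &&
          !(decide (side (K p.1) (j p.1 * (d / M p.1) + r) =
            side (K p.1) (j p.1 * (d' / M p.1) + r)))))))
      (c_pow (c_const 2) (c_add (hK.comp Computable.fst) (c_const 1))) ?_
    have g1 : Computable (fun p : (α × ℕ) × ℕ => p.1.1) := Computable.fst.comp Computable.fst
    have g2 : Computable (fun p : ((α × ℕ) × ℕ) × ℕ => p.1.1.1) := g1.comp Computable.fst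
    have f1 : Computable (fun p : (((α × ℕ) × ℕ) × ℕ) × ℕ => p.1.1.1.1) := g2.comp Computable.fst
    have fq : Computable (fun p : (((α × ℕ) × ℕ) × ℕ) × ℕ => p.1.1.1.2) :=
      Computable.snd.comp (Computable.fst.comp (Computable.fst.comp Computable.fst))
    have fr : Computable (fun p : (((α × ℕ) × ℕ) × ℕ) × ℕ => p.1.1.2) :=
      Computable.snd.comp (Computable.fst.comp Computable.fst)
    have fd : Computable (fun p : (((α × ℕ) × ℕ) × ℕ) × ℕ => p.1.2) :=
      Computable.snd.comp Computable.fst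
    have fd' : Computable (fun p : (((α × ℕ) × ℕ) × ℕ) × ℕ => p.2) := Computable.snd
    refine c_or ?_ ?_
    · refine c_bex (α := (α × ℕ) × ℕ) (n := fun p => L p.1.1) (f := fun p d => bex (L p.1.1) (fun d' =>
          (tb (v p.1.1) d && tb (v p.1.1) d') && ((decide (d < p.1.2) && decide (d' < p.1.2)) &&
          !(decide (side (K p.1.1) (j p.1.1 * (d / M p.1.1) + p.2) =
            side (K p.1.1) (j p.1.1 * (d' / M p.1.1) + p.2)))))) (hL.comp g1) ?_
      refine c_bex (α := ((α × ℕ) × ℕ) × ℕ) (n := fun p => L p.1.1.1) (f := fun p d' =>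
          (tb (v p.1.1.1) p.2 && tb (v p.1.1.1) d') &&
          ((decide (p.2 < p.1.1.2) && decide (d' < p.1.1.2)) &&
          !(decide (side (K p.1.1.1) (j p.1.1.1 * (p.2 / M p.1.1.1) + p.1.2) =
            side (K p.1.1.1) (j p.1.1.1 * (d' / M p.1.1.1) + p.1.2))))) (hL.comp g2) ?_
      exact c_body (c_and (c_lt fd fq) (c_lt fd' fq)) (hM.comp f1) (hK.comp f1) (hj.comp f1) fr
        (hv.comp f1) fd fd'
    · refine c_bex (α := (α × ℕ) × ℕ) (n := fun p => L p.1.1) (f := fun p d => bex (L p.1.1) (fun d' =>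
          (tb (v p.1.1) d && tb (v p.1.1) d') && ((decide (p.1.2 ≤ d) && decide (p.1.2 ≤ d')) &&
          !(decide (side (K p.1.1) (j p.1.1 * (d / M p.1.1) + p.2) =
            side (K p.1.1) (j p.1.1 * (d' / M p.1.1) + p.2)))))) (hL.comp g1) ?_
      refine c_bex (α := ((α × ℕ) × ℕ) × ℕ) (n := fun p => L p.1.1.1) (f := fun p d' =>
          (tb (v p.1.1.1) p.2 && tb (v p.1.1.1) d') &&
          ((decide (p.1.1.2 ≤ p.2) && decide (p.1.1.2 ≤ d')) &&
          !(decide (side (K p.1.1.1) (j p.1.1.1 * (p.2 / M p.1.1.1) + p.1.2) =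
            side (K p.1.1.1) (j p.1.1.1 * (d' / M p.1.1.1) + p.1.2))))) (hL.comp g2) ?_
      exact c_body (c_and (c_le fq fd) (c_le fq fd')) (hM.comp f1) (hK.comp f1) (hj.comp f1) fr
        (hv.comp f1) fd fd'

variable {E : ℕ → List Bool → ℕ → Bool}

lemma c_gstrB (hE : Computable fun q : (ℕ × List Bool) × ℕ => E q.1.1 q.1.2 q.2)
    {e M K j L s : α → ℕ} (he : Computable e) (hM : Computable M) (hK : Computable K)
    (hj : Computable j) (hL : Computable L) (hs : Computable s) :
    Computable (fun a => gstrB E (e a) (M a) (K a) (j a) (L a) (s a)) := by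
  refine c_bex (c_pow (c_const 2) hL) ?_
  have f1 : Computable (fun p : α × ℕ => p.1) := Computable.fst
  refine c_and (α := α × ℕ) (c_goodB (hM.comp f1) (hK.comp f1) (hj.comp f1) (hL.comp f1)
    Computable.snd) ?_
  refine c_ball (α := α × ℕ) (n := fun p => L p.1)
    (f := fun p d => !(tb p.2 d) || E (e p.1) (str (L p.1) (s p.1)) d) (hL.comp f1) ?_
  have g1 : Computable (fun p : (α × ℕ) × ℕ => p.1.1) := Computable.fst.comp Computable.fst
  refine c_or (c_not (c_tb (Computable.snd.comp Computable.fst) Computable.snd)) ?_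
  exact hE.comp (((he.comp g1).pair (c_str (hL.comp g1) (hs.comp g1))).pair Computable.snd)

lemma c_condB (hE : Computable fun q : (ℕ × List Bool) × ℕ => E q.1.1 q.1.2 q.2)
    {e M K j L : α → ℕ} (he : Computable e) (hM : Computable M) (hK : Computable K)
    (hj : Computable j) (hL : Computable L) :
    Computable (fun a => condB E (e a) (M a) (K a) (j a) (L a)) := by
  have f1 : Computable (fun p : α × ℕ => p.1) := Computable.fst
  refine c_le (c_pow (c_const 2) hL) (c_mul (c_const 2) ?_)
  exact c_count (c_pow (c_const 2) hL) (c_gstrB hE (he.comp f1) (hM.comp f1) (hK.comp f1)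
    (hj.comp f1) (hL.comp f1) Computable.snd).to₂

end

theorem s_cp : S_CP := by
  intro E hE
  refine ⟨fun e M w => condB E e M (wK w) (wj w) (wL w), ?_, fun e M w => condB_iff _ _ _ _ _ _⟩
  have f1 : Computable (fun q : (ℕ × ℕ) × ℕ => q.1.1) := Computable.fst.comp Computable.fst
  have f2 : Computable (fun q : (ℕ × ℕ) × ℕ => q.1.2) := Computable.snd.comp Computable.fst
  have f3 : Computable (fun q : (ℕ × ℕ) × ℕ => q.2) := Computable.snd
  exact c_condB hE.comp f1 f2 (c_wK f3) (c_wj f3) (c_wL f3)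

end Pool.Agent.Q223.NH
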