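import Pool.Agent.Q205.NH.Stm

set_option autoImplicit false

/-! Project NH, job TF: an enumeration family for all Turing functionals. -/

namespace Pool.Agent.Q223.NH

open Pool.Agent.Q205.NH Pool.Agent.Helper743 Pool.Agent.H715R3.Disp Encodable

/-- the string coded by a number -/
def tau (s : ℕ) : List Bool := (decode s : Option (List Bool)).getD []

lemma tau_encode (l : List Bool) : tau (encode l) = l := by simp [tau]

/-- the family -/
def EE (e : ℕ) (ρ : List Bool) (x : ℕ) : Bool :=
  decide ((tau e.unpair.2).length ≤ ρ.length) &&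
    decide (gam e.unpair.1
      ((tau e.unpair.2 ++ ρ.drop (tau e.unpair.2).length).map Bool.toNat) x = some 1)

lemma EE_iff (e : ℕ) (ρ : List Bool) (x : ℕ) : EE e ρ x = true ↔
    (tau e.unpair.2).length ≤ ρ.length ∧ gam e.unpair.1
      ((tau e.unpair.2 ++ ρ.drop (tau e.unpair.2).length).map Bool.toNat) x = some 1 := by
  simp [EE]

lemma tau_primrec : Primrec tau :=
  Primrec.option_getD.comp Primrec.decode (Primrec.const [])

lemma toNat_primrec : Primrec Bool.toNat := Primrec.dom_finite _

lemma EE_comp : Computable fun q : (ℕ × List Bool) × ℕ => EE q.1.1 q.1.2 q.2 := by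
  have a1 : Primrec (fun q : (ℕ × List Bool) × ℕ => q.1.1.unpair.1) :=
    Primrec.fst.comp (Primrec.unpair.comp (Primrec.fst.comp Primrec.fst))
  have a2 : Primrec (fun q : (ℕ × List Bool) × ℕ => tau q.1.1.unpair.2) :=
    tau_primrec.comp (Primrec.snd.comp (Primrec.unpair.comp (Primrec.fst.comp Primrec.fst)))
  have a3 : Primrec (fun q : (ℕ × List Bool) × ℕ => q.1.2) := Primrec.snd.comp Primrec.fst
  have a4 : Primrec (fun q : (ℕ × List Bool) × ℕ => (tau q.1.1.unpair.2).length) :=
    Primrec.list_length.comp a2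
  have a5 : Primrec (fun q : (ℕ × List Bool) × ℕ => q.1.2.drop (tau q.1.1.unpair.2).length) :=
    Primrec.list_drop.comp a4 a3
  have a6 : Primrec (fun q : (ℕ × List Bool) × ℕ =>
      (tau q.1.1.unpair.2 ++ q.1.2.drop (tau q.1.1.unpair.2).length)) :=
    Primrec.list_append.comp a2 a5
  have a7 : Primrec (fun q : (ℕ × List Bool) × ℕ =>
      (tau q.1.1.unpair.2 ++ q.1.2.drop (tau q.1.1.unpair.2).length).map Bool.toNat) :=
    Primrec.list_map a6 (toNat_primrec.comp Primrec.snd).to₂
  have a8 : Primrec (fun q : (ℕ × List Bool) × ℕ => gam q.1.1.unpair.1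
      ((tau q.1.1.unpair.2 ++ q.1.2.drop (tau q.1.1.unpair.2).length).map Bool.toNat) q.2) :=
    gam_primrec.comp ((a1.pair a7).pair Primrec.snd)
  have b1 : PrimrecPred (fun q : (ℕ × List Bool) × ℕ =>
      (tau q.1.1.unpair.2).length ≤ q.1.2.length) :=
    Primrec.nat_le.comp a4 (Primrec.list_length.comp a3)
  have b2 : PrimrecPred (fun q : (ℕ × List Bool) × ℕ => gam q.1.1.unpair.1
      ((tau q.1.1.unpair.2 ++ q.1.2.drop (tau q.1.1.unpair.2).length).map Bool.toNat) q.2
        = some 1) :=
    Primrec.eq.comp a8 (Primrec.const (some 1))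
  exact (Primrec.and.comp b1.decide b2.decide).to_comp

/-- overwriting on strings -/
lemma str_eq (τ : List Bool) (B : ℕ → Bool) {n : ℕ} (hn : τ.length ≤ n) :
    (τ ++ (bits B n).drop τ.length).map Bool.toNat = pre (bn (ow τ B)) n := by
  apply List.ext_getElem?
  intro i
  rw [pre_getElem?, List.getElem?_map]
  by_cases h1 : i < τ.length
  · rw [List.getElem?_append_left h1, if_pos (lt_of_lt_of_le h1 hn)]
    simp [bn, ow, h1]
  · rw [List.getElem?_append_right (not_lt.1 h1), List.getElem?_drop,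
      Nat.add_sub_cancel' (not_lt.1 h1)]
    by_cases h2 : i < n
    · simp [bits, bn, ow, h1, h2]
    · simp [bits, h2]

lemma HS_EE (e : ℕ) (B : ℕ → Bool) : HS EE e B =
    {x | ∃ n, gam e.unpair.1 (pre (bn (ow (tau e.unpair.2) B)) n) x = some 1} := by
  ext x
  constructor
  · rintro ⟨n, hn⟩
    rw [EE_iff] at hn
    have h1 : (tau e.unpair.2).length ≤ n := by simpa [bits] using hn.1
    refine ⟨n, ?_⟩
    rw [← str_eq _ _ h1]
    exact hn.2
  · rintro ⟨n, hn⟩
    refine ⟨max n (tau e.unpair.2).length, ?_⟩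
    rw [EE_iff]
    refine ⟨by simp [bits], ?_⟩
    rw [str_eq _ _ (le_max_right _ _)]
    exact gam_mono (pre_prefix _ (le_max_left _ _)) hn

lemma ow_ow (τ σ : List Bool) (B : ℕ → Bool) :
    ow τ (ow σ B) = ow (τ ++ σ.drop τ.length) B := by
  funext n
  simp only [ow, List.length_append, List.length_drop]
  by_cases h1 : n < τ.length
  · rw [if_pos h1, if_pos (by omega)]
    simp [List.getD_eq_getElem?_getD, List.getElem?_append_left h1]
  · rw [if_neg h1]
    have h3 : (τ ++ σ.drop τ.length).getD n false = σ.getD n false := by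
      rw [List.getD_eq_getElem?_getD, List.getElem?_append_right (not_lt.1 h1),
        List.getElem?_drop, Nat.add_sub_cancel' (not_lt.1 h1), List.getD_eq_getElem?_getD]
    by_cases h2 : n < σ.length
    · rw [if_pos h2, if_pos (by omega), h3]
    · rw [if_neg h2, if_neg (by omega)]

lemma ow_nil (B : ℕ → Bool) : ow [] B = B := by
  funext n; simp [ow]

theorem s_tf : S_TF := by
  refine ⟨EE, ⟨EE_comp, ?_⟩, ?_, ?_⟩
  · intro e ρ ρ' x hp h
    rw [EE_iff] at h ⊢
    refine ⟨h.1.trans hp.length_le, gam_mono ?_ h.2⟩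
    apply List.IsPrefix.map
    obtain ⟨t, rfl⟩ := hp
    rw [List.drop_append_of_le_length h.1, ← List.append_assoc]
    exact List.prefix_append _ _
  · intro e σ
    refine ⟨Nat.pair e.unpair.1 (encode (tau e.unpair.2 ++ σ.drop (tau e.unpair.2).length)), ?_⟩
    intro B
    rw [HS_EE, HS_EE, ow_ow]
    simp only [Nat.unpair_pair, tau_encode]
  · intro h B hT
    obtain ⟨p, hp⟩ := exists_gam (bn B) (bn h : ℕ →. ℕ) hT
    refine ⟨Nat.pair p (encode ([] : List Bool)), ?_⟩
    rw [HS_EE]
    ext x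
    simp only [Nat.unpair_pair, tau_encode, ow_nil, Set.mem_ofPred_eq]
    rw [← hp x 1]
    simp only [PFun.coe_val, Part.mem_some_iff, bn]
    cases h x <;> simp

end Pool.Agent.Q223.NH
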