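import Pool.Agent.Q205.NH.Stm

set_option autoImplicit false

/-! Project NH, job DN: random oracles compute functions avoiding a partial function. -/

namespace Pool.Agent.Q223.NH

open Pool.Agent.Q205.NH Pool.Agent.Helper743 Pool.Agent.H715R3.Disp Encodable MeasureTheory
open scoped ENNReal

/-- the number with the given digits -/
def dsum (b : ℕ → Bool) (n : ℕ) : ℕ := ∑ k ∈ Finset.range n, (b k).toNat * 2 ^ k

lemma dsum_lt (b : ℕ → Bool) (n : ℕ) : dsum b n < 2 ^ n := by
  induction n with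
  | zero => simp [dsum]
  | succ n ih =>
    rw [dsum, Finset.sum_range_succ, pow_succ]
    rw [dsum] at ih
    cases b n <;> simp <;> omega

lemma dsum_inj {b b' : ℕ → Bool} : ∀ {n : ℕ}, dsum b n = dsum b' n → ∀ k < n, b k = b' k := by
  intro n
  induction n with
  | zero => intro _ k hk; omega
  | succ n ih =>
    intro h k hk
    have h1 := dsum_lt b n
    have h2 := dsum_lt b' n
    have h3 : dsum b n + (b n).toNat * 2 ^ n = dsum b' n + (b' n).toNat * 2 ^ n := by
      have := h
      rw [dsum, dsum, Finset.sum_range_succ, Finset.sum_range_succ] at this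
      exact this
    have h4 : b n = b' n ∧ dsum b n = dsum b' n := by
      cases hb : b n <;> cases hb' : b' n <;> rw [hb, hb'] at h3 <;> simp at h3 ⊢ <;> omega
    rcases Nat.lt_succ_iff_lt_or_eq.1 hk with h5 | h5
    · exact ih h4.2 k h5
    · rw [h5]; exact h4.1

/-- the function computed from the random bits -/
def ff (B : ℕ → Bool) (e : ℕ) : ℕ := dsum (fun k => B (Nat.pair e k)) (e + 2)

lemma ff_measure (e v : ℕ) : mu {B | ff B e = v} ≤ (2⁻¹ : ℝ≥0∞) ^ (e + 2) := by
  by_cases h : ({B : ℕ → Bool | ff B e = v}).Nonempty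
  · obtain ⟨B0, hB0⟩ := h
    have h1 : {B : ℕ → Bool | ff B e = v} ⊆
        Set.pi (((Finset.range (e + 2)).image (Nat.pair e) : Finset ℕ) : Set ℕ)
          (fun i => ({B0 i} : Set Bool)) := by
      intro B hB
      rw [Set.mem_pi]
      intro i hi
      rw [Finset.mem_coe, Finset.mem_image] at hi
      obtain ⟨k, hk, rfl⟩ := hi
      have h2 : ff B e = ff B0 e := hB.trans hB0.symm
      exact dsum_inj h2 k (Finset.mem_range.1 hk)
    refine (measure_mono h1).trans ?_
    rw [Measure.infinitePi_pi _ (fun i _ => MeasurableSet.singleton _)]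
    simp only [coin, Finset.prod_const]
    rw [Finset.card_image_of_injOn, Finset.card_range]
    intro a _ b _ hab
    exact (Nat.pair_eq_pair.1 hab).2
  · rw [Set.not_nonempty_iff_eq_empty] at h
    rw [h]; simp

lemma psi_measure (ψ : ℕ →. ℕ) (e : ℕ) : mu {B | ff B e ∈ ψ e} ≤ (2⁻¹ : ℝ≥0∞) ^ (e + 2) := by
  by_cases h : ∃ v, v ∈ ψ e
  · obtain ⟨v, hv⟩ := h
    refine le_trans (measure_mono ?_) (ff_measure e v)
    intro B hB
    exact Part.mem_unique hB hv
  · have : {B : ℕ → Bool | ff B e ∈ ψ e} = ∅ := by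
      ext B
      simp only [Set.mem_ofPred_eq, Set.mem_empty_iff_false, iff_false]
      intro hB
      exact h ⟨_, hB⟩
    rw [this]; simp

lemma bad_lt (ψ : ℕ →. ℕ) : mu (⋃ e, {B | ff B e ∈ ψ e}) < 1 := by
  refine lt_of_le_of_lt (measure_iUnion_le _) ?_
  refine lt_of_le_of_lt (ENNReal.tsum_le_tsum (psi_measure ψ)) ?_
  have h1 : ∀ e : ℕ, (2⁻¹ : ℝ≥0∞) ^ (e + 2) = (2⁻¹ : ℝ≥0∞) ^ 2 * (2⁻¹ : ℝ≥0∞) ^ e := by
    intro e; rw [← pow_add]; congr 1; ring
  rw [tsum_congr h1, ENNReal.tsum_mul_left, ENNReal.tsum_geometric, ENNReal.one_sub_inv_two, inv_inv, pow_two,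
    mul_assoc, ENNReal.inv_mul_cancel (by norm_num) (by norm_num), mul_one]
  exact ENNReal.inv_lt_one.2 (by norm_num)

lemma ff_TR (B : ℕ → Bool) : TR (ff B) (bn B) := by
  have h2 : RecT {((bn B : ℕ → ℕ) : ℕ →. ℕ)} (bn B) := TR.refl _
  have hy : Computable (fun z : ℕ => Nat.pair z.unpair.1 z.unpair.2.unpair.1) :=
    (Primrec₂.natPair.comp (Primrec.fst.comp Primrec.unpair)
      (Primrec.fst.comp (Primrec.unpair.comp (Primrec.snd.comp Primrec.unpair)))).to_comp
  have h3 : RecT {((bn B : ℕ → ℕ) : ℕ →. ℕ)}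
      (fun z => bn B (Nat.pair z.unpair.1 z.unpair.2.unpair.1)) :=
    RecT.comp h2 (Computable.recT hy)
  have h4 : RecT {((bn B : ℕ → ℕ) : ℕ →. ℕ)}
      (fun z => Nat.pair z (bn B (Nat.pair z.unpair.1 z.unpair.2.unpair.1))) :=
    RecT.pair (Computable.recT Computable.id) h3
  have pw : Primrec (fun n : ℕ => 2 ^ n) := by
    have : Primrec₂ ((· ^ ·) : ℕ → ℕ → ℕ) := by
      have h := Primrec.nat_rec (f := fun _ : ℕ => 1) (g := fun a (q : ℕ × ℕ) => q.2 * a)
        (Primrec.const 1) ((Primrec.nat_mul.comp (Primrec.snd.comp Primrec.snd) Primrec.fst).to₂)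
      refine h.of_eq ?_
      intro a n
      induction n with
      | zero => simp
      | succ n ih => simp only [ih, pow_succ]
    exact this.comp (Primrec.const 2) Primrec.id
  have h5 : Computable (fun w : ℕ => w.unpair.1.unpair.2.unpair.2 +
      w.unpair.2 * 2 ^ w.unpair.1.unpair.2.unpair.1) := by
    have b1 : Primrec (fun w : ℕ => w.unpair.1.unpair.2) :=
      Primrec.snd.comp (Primrec.unpair.comp (Primrec.fst.comp Primrec.unpair))
    have b2 : Primrec (fun w : ℕ => w.unpair.2) := Primrec.snd.comp Primrec.unpair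
    have b3 : Primrec (fun w : ℕ => w.unpair.1.unpair.2.unpair.2) :=
      Primrec.snd.comp (Primrec.unpair.comp b1)
    have b4 : Primrec (fun w : ℕ => w.unpair.1.unpair.2.unpair.1) :=
      Primrec.fst.comp (Primrec.unpair.comp b1)
    exact (Primrec.nat_add.comp b3 (Primrec.nat_mul.comp b2 (pw.comp b4))).to_comp
  have h6 := RecT.comp (Computable.recT h5) h4
  have h7 := RecT.prec (f := fun _ => 0) (Computable.recT (Computable.const 0)) h6
  have h8 : Computable (fun e : ℕ => Nat.pair e (e + 2)) :=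
    (Primrec₂.natPair.comp Primrec.id (Primrec.nat_add.comp Primrec.id (Primrec.const 2))).to_comp
  have h9 := RecT.comp h7 (Computable.recT h8)
  refine Nat.RecursiveIn.of_eq h9 ?_
  intro e
  have key : ∀ n : ℕ, (Nat.rec 0 (fun y ih => ih + bn B (Nat.pair e y) * 2 ^ y) n : ℕ) =
      dsum (fun k => B (Nat.pair e k)) n := by
    intro n
    induction n with
    | zero => simp [dsum]
    | succ n ih =>
      rw [dsum, Finset.sum_range_succ]
      rw [dsum] at ih
      simp only [ih]
      rfl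
  simp only [Nat.unpair_pair]
  rw [ff, ← key (e + 2)]

theorem s_dn : S_DN := by
  intro ψ Q h
  by_contra hcon
  push Not at hcon
  have h1 : mu {B | ¬ Q B} = 0 := h
  have h2 : (Set.univ : Set (ℕ → Bool)) ⊆ (⋃ e, {B | ff B e ∈ ψ e}) ∪ {B | ¬ Q B} := by
    intro B _
    by_cases hB : Q B
    · left
      obtain ⟨e, he⟩ := hcon B hB (ff B) (ff_TR B)
      exact Set.mem_iUnion.2 ⟨e, he⟩
    · exact Or.inr hB
  have h3 : mu Set.univ ≤ mu (⋃ e, {B | ff B e ∈ ψ e}) + mu {B | ¬ Q B} :=
    (measure_mono h2).trans (measure_union_le _ _)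
  rw [h1, add_zero, measure_univ] at h3
  exact absurd h3 (not_le.2 (bad_lt ψ))

end Pool.Agent.Q223.NH
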